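import Mathlib

/-!
Metric dimension versus edge metric dimension: geodesic segments leaving a vertex set.
-/

set_option autoImplicit false

namespace Pool.Agent.H9.MD

open Finset

variable {V : Type} (G : SimpleGraph V)

/-- Distance from the edge `f` to the vertex `w`. -/
noncomputable def ed (f : Sym2 V) (w : V) : ℕ :=
  Sym2.lift ⟨fun a b => min (G.dist a w) (G.dist b w), fun a b => min_comm _ _⟩ f

theorem ed_mk (a b w : V) : ed G s(a, b) w = min (G.dist a w) (G.dist b w) := rfl

variable {G}

theorem tri (hG : G.Connected) (a b c : V) : G.dist a c ≤ G.dist a b + G.dist b c :=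
  hG.dist_triangle

theorem adj_le (hG : G.Connected) {x y : V} (h : G.Adj x y) (w : V) :
    G.dist x w ≤ G.dist y w + 1 := by
  have h1 := tri hG x y w
  have h2 : G.dist x y = 1 := SimpleGraph.dist_eq_one_iff_adj.2 h
  omega

theorem dist_zero (hG : G.Connected) {x y : V} (h : G.dist x y = 0) : x = y :=
  (hG.dist_eq_zero_iff).1 h

theorem closer (hG : G.Connected) {x w : V} (h : x ≠ w) :
    ∃ y, G.Adj x y ∧ G.dist y w + 1 = G.dist x w := by
  obtain ⟨p, hp⟩ := hG.exists_walk_length_eq_dist x w
  cases p with
  | nil => exact absurd rfl h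
  | cons hadj q =>
    rename_i y
    refine ⟨y, hadj, ?_⟩
    have h1 : G.dist y w ≤ q.length := SimpleGraph.dist_le q
    have h2 := adj_le hG hadj w
    rw [SimpleGraph.Walk.length_cons] at hp
    omega

theorem ed_ge (hG : G.Connected) {f : Sym2 V} (hf : f ∈ G.edgeSet) (w w' : V) :
    G.dist w w' ≤ ed G f w + 1 + ed G f w' := by
  induction f using Sym2.ind with
  | _ a b =>
    rw [SimpleGraph.mem_edgeSet] at hf
    rw [ed_mk, ed_mk]
    have h1 := tri hG w a w'
    have h2 := tri hG w b w'
    have h3 := adj_le hG hf w'
    have h4 := adj_le hG hf.symm w'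
    have h5 : G.dist w a = G.dist a w := SimpleGraph.dist_comm
    have h6 : G.dist w b = G.dist b w := SimpleGraph.dist_comm
    omega

/-- `w` attains its distance to the edge at one of the endpoints. -/
theorem ed_attain {f : Sym2 V} (w : V) : ∃ x ∈ f, ed G f w = G.dist x w := by
  induction f using Sym2.ind with
  | _ a b =>
    rw [ed_mk]
    rcases le_total (G.dist a w) (G.dist b w) with h | h
    · exact ⟨a, by simp, by omega⟩
    · exact ⟨b, by simp, by omega⟩

theorem ed_le {f : Sym2 V} {x : V} (hx : x ∈ f) (w : V) : ed G f w ≤ G.dist x w := by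
  induction f using Sym2.ind with
  | _ a b =>
    rw [ed_mk]
    rcases Sym2.mem_iff.1 hx with rfl | rfl <;> omega

variable [DecidableEq V]

/-- `Out HV w x e A F`: there is a geodesic segment from `x` towards `w` which meets `HV` for the
first time at its endpoint `e`; `A` is the set of its vertices outside `HV`, `F` the set of its
edges. -/
inductive Out (G : SimpleGraph V) (HV : Finset V) (w : V) :
    V → V → Finset V → Finset (Sym2 V) → Prop
  | here {x : V} : x ∈ HV → Out G HV w x x ∅ ∅
  | step {x y e : V} {A : Finset V} {F : Finset (Sym2 V)} : x ∉ HV → G.Adj x y →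
      G.dist y w + 1 = G.dist x w → Out G HV w y e A F →
      Out G HV w x e (insert x A) (insert s(x, y) F)

section

variable {HV : Finset V} {w : V}

theorem Out.end_mem {x e : V} {A : Finset V} {F : Finset (Sym2 V)} (h : Out G HV w x e A F) :
    e ∈ HV := by
  induction h with
  | here hx => exact hx
  | step _ _ _ _ ih => exact ih

theorem Out.vert {x e : V} {A : Finset V} {F : Finset (Sym2 V)} (h : Out G HV w x e A F) :
    ∀ z ∈ A, z ∉ HV ∧ G.dist z w ≤ G.dist x w ∧ G.dist e w < G.dist z w := by
  induction h with
  | here hx => simp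
  | @step x y e A F hx hxy hd h ih =>
    intro z hz
    rcases Finset.mem_insert.1 hz with rfl | hz
    · refine ⟨hx, le_rfl, ?_⟩
      have : G.dist e w ≤ G.dist y w := by
        clear ih
        cases h with
        | here => exact le_rfl
        | step hx' hxy' hd' h' =>
          have hh : ∀ {x e : V} {A : Finset V} {F : Finset (Sym2 V)}, Out G HV w x e A F →
              G.dist e w ≤ G.dist x w := by
            intro x e A F h
            induction h with
            | here => exact le_rfl
            | step _ _ hd _ ih => omega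
          have := hh h'
          omega
      omega
    · obtain ⟨h1, h2, h3⟩ := ih z hz
      exact ⟨h1, by omega, h3⟩

theorem Out.dist_le {x e : V} {A : Finset V} {F : Finset (Sym2 V)} (h : Out G HV w x e A F) :
    G.dist e w ≤ G.dist x w := by
  induction h with
  | here => exact le_rfl
  | step _ _ hd _ ih => omega

theorem Out.vert_inj {x e : V} {A : Finset V} {F : Finset (Sym2 V)} (h : Out G HV w x e A F) :
    ∀ z ∈ A, ∀ z' ∈ A, G.dist z w = G.dist z' w → z = z' := by
  induction h with
  | here hx => simp
  | @step x y e A F hx hxy hd h ih =>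
    intro z hz z' hz' heq
    rcases Finset.mem_insert.1 hz with h1 | h1 <;> rcases Finset.mem_insert.1 hz' with h2 | h2
    · rw [h1, h2]
    · have := (h.vert z' h2).2.1
      rw [h1] at heq
      omega
    · have := (h.vert z h1).2.1
      rw [h2] at heq
      omega
    · exact ih z h1 z' h2 heq

theorem Out.geo (hG : G.Connected) {x e : V} {A : Finset V} {F : Finset (Sym2 V)}
    (h : Out G HV w x e A F) :
    (∀ z ∈ A, G.dist x z + G.dist z w = G.dist x w) ∧ G.dist x e + G.dist e w = G.dist x w := by
  induction h with
  | here hx => simp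
  | @step x y e A F hx hxy hd h ih =>
    obtain ⟨ih1, ih2⟩ := ih
    constructor
    · intro z hz
      rcases Finset.mem_insert.1 hz with rfl | hz
      · simp
      · have h1 := ih1 z hz
        have h2 := adj_le hG hxy z
        have h3 := tri hG x z w
        omega
    · have h2 := adj_le hG hxy e
      have h3 := tri hG x e w
      omega

/-- Description of the edges of a segment. -/
theorem Out.edge (hG : G.Connected) {x e : V} {A : Finset V} {F : Finset (Sym2 V)}
    (h : Out G HV w x e A F) :
    ∀ f ∈ F, ∃ p q, f = s(p, q) ∧ G.Adj p q ∧ p ∈ A ∧ (q ∈ A ∨ q = e) ∧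
      G.dist q w + 1 = G.dist p w ∧ G.dist x p + G.dist p w = G.dist x w ∧
      G.dist x q + G.dist q w = G.dist x w := by
  induction h with
  | here hx => simp
  | @step x y e A F hx hxy hd h ih =>
    intro f hf
    have hx0 : G.dist x x = 0 := SimpleGraph.dist_self
    rcases Finset.mem_insert.1 hf with rfl | hf
    · refine ⟨x, y, rfl, hxy, Finset.mem_insert_self _ _, ?_, hd, by omega, ?_⟩
      · cases h with
        | here => exact Or.inr rfl
        | step => exact Or.inl (by simp)
      · have : G.dist x y = 1 := SimpleGraph.dist_eq_one_iff_adj.2 hxy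
        omega
    · obtain ⟨p, q, rfl, h1, h2, h3, h4, h5, h6⟩ := ih f hf
      refine ⟨p, q, rfl, h1, Finset.mem_insert_of_mem h2, ?_, h4, ?_, ?_⟩
      · rcases h3 with h3 | h3
        · exact Or.inl (Finset.mem_insert_of_mem h3)
        · exact Or.inr h3
      · have := adj_le hG hxy p
        have := tri hG x p w
        omega
      · have := adj_le hG hxy q
        have := tri hG x q w
        omega

theorem Out.ed_w (hG : G.Connected) {x e : V} {A : Finset V} {F : Finset (Sym2 V)}
    (h : Out G HV w x e A F) :
    ∀ f ∈ F, ed G f x + 1 + ed G f w = G.dist x w ∧ G.dist e w ≤ ed G f w := by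
  intro f hf
  obtain ⟨p, q, rfl, h1, h2, h3, h4, h5, h6⟩ := h.edge hG f hf
  rw [ed_mk, ed_mk]
  have e1 : G.dist x p = G.dist p x := SimpleGraph.dist_comm
  have e2 : G.dist x q = G.dist q x := SimpleGraph.dist_comm
  have h7 := (h.vert p h2).2.2
  omega

theorem Out.edge_inj (hG : G.Connected) {x e : V} {A : Finset V} {F : Finset (Sym2 V)}
    (h : Out G HV w x e A F) :
    ∀ f ∈ F, ∀ f' ∈ F, ed G f w = ed G f' w → f = f' := by
  induction h with
  | here hx => simp
  | @step x y e A F hx hxy hd h ih =>
    have key : ∀ f ∈ F, ed G f w < ed G s(x, y) w := by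
      intro f hf
      obtain ⟨p, q, rfl, h1, h2, h3, h4, h5, h6⟩ := h.edge hG f hf
      rw [ed_mk, ed_mk]
      have := (h.vert p h2).2.1
      omega
    intro f hf f' hf' heq
    rcases Finset.mem_insert.1 hf with rfl | hf <;> rcases Finset.mem_insert.1 hf' with rfl | hf'
    · rfl
    · have := key f' hf'
      omega
    · have := key f hf
      omega
    · exact ih f hf f' hf' heq

theorem Out.card (hG : G.Connected) {x e : V} {A : Finset V} {F : Finset (Sym2 V)}
    (h : Out G HV w x e A F) :
    A.card = F.card ∧ F.card + G.dist e w = G.dist x w := by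
  induction h with
  | here hx => simp
  | @step x y e A F hx hxy hd h ih =>
    have h1 : x ∉ A := by
      intro hxA
      have := (h.vert x hxA).2.1
      omega
    have h2 : s(x, y) ∉ F := by
      intro hF
      obtain ⟨p, q, h0, h1', h2, h3, h4, h5, h6⟩ := h.edge hG _ hF
      have h7 := (h.vert p h2).2.1
      have h8 : x ∈ s(p, q) := h0 ▸ (by simp)
      rcases Sym2.mem_iff.1 h8 with rfl | rfl
      · exact h1 h2
      · omega
    rw [Finset.card_insert_of_notMem h1, Finset.card_insert_of_notMem h2]
    omega

/-- Sub-segments. -/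
theorem Out.sub {x e : V} {A : Finset V} {F : Finset (Sym2 V)}
    (h : Out G HV w x e A F) :
    ∀ z ∈ A, ∃ A' F', Out G HV w z e A' F' := by
  induction h with
  | here hx => simp
  | @step x y e A F hx hxy hd h ih =>
    intro z hz
    rcases Finset.mem_insert.1 hz with rfl | hz
    · exact ⟨_, _, Out.step hx hxy hd h⟩
    · exact ih z hz

theorem exists_out (hG : G.Connected) (hw : w ∈ HV) (x : V) :
    ∃ e A F, Out G HV w x e A F := by
  induction hn : G.dist x w using Nat.strong_induction_on generalizing x with
  | _ n ih =>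
    by_cases hx : x ∈ HV
    · exact ⟨x, ∅, ∅, Out.here hx⟩
    · have hxw : x ≠ w := by rintro rfl; exact hx hw
      obtain ⟨y, hy1, hy2⟩ := closer hG hxw
      obtain ⟨e, A, F, h⟩ := ih (G.dist y w) (by omega) y rfl
      exact ⟨e, _, _, Out.step hx hy1 hy2 h⟩

theorem exists_out_short (hG : G.Connected) {h : V} (hh : h ∈ HV) (x : V)
    (hd : G.dist x h + G.dist h w = G.dist x w) :
    ∃ e A F, Out G HV w x e A F ∧ F.card ≤ G.dist x h := by
  induction hn : G.dist x h using Nat.strong_induction_on generalizing x with
  | _ n ih =>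
    by_cases hx : x ∈ HV
    · exact ⟨x, ∅, ∅, Out.here hx, by simp⟩
    · have hxw : x ≠ h := by rintro rfl; exact hx hh
      obtain ⟨y, hy1, hy2⟩ := closer hG hxw
      have h1 := tri hG y h w
      have h2 := adj_le hG hy1 w
      obtain ⟨e, A, F, h, h'⟩ := ih (G.dist y h) (by omega) y (by omega) rfl
      refine ⟨e, _, _, Out.step hx hy1 (by omega) h, ?_⟩
      have := Finset.card_insert_le s(x, y) F
      omega

theorem Out.of_mem {x e : V} {A : Finset V} {F : Finset (Sym2 V)}
    (h : Out G HV w x e A F) (hx : x ∈ HV) : e = x := by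
  cases h with
  | here => rfl
  | step hx' => exact absurd hx hx'

end

end Pool.Agent.H9.MD
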