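import Pool.Agent.H9.MD.Basic

/-!
Configurations: a vertex set `HV` and an edge set `HE` all of whose points lie on geodesics between
observers from `W`, and which are resolved by `W`.
-/

set_option autoImplicit false

namespace Pool.Agent.H9.MD

open Finset

variable {V : Type} [DecidableEq V]

/-- `x` lies on a geodesic between two elements of `W`. -/
def IV (G : SimpleGraph V) (W : Finset V) (x : V) : Prop :=
  ∃ w ∈ W, ∃ w' ∈ W, G.dist x w + G.dist x w' ≤ G.dist w w'

/-- the edge `f` lies on a geodesic between two elements of `W`. -/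
def IE (G : SimpleGraph V) (W : Finset V) (f : Sym2 V) : Prop :=
  ∃ w ∈ W, ∃ w' ∈ W, ed G f w + 1 + ed G f w' ≤ G.dist w w'

structure IsCfg (G : SimpleGraph V) (S W HV : Finset V) (HE : Finset (Sym2 V)) : Prop where
  WH : W ⊆ HV
  adj : ∀ f ∈ HE, f ∈ G.edgeSet
  inc : ∀ f ∈ HE, ∀ x ∈ f, x ∈ HV
  BV : ∀ x ∈ HV, IV G W x
  BE : ∀ f ∈ HE, IE G W f
  DV : ∀ x ∈ HV, ∀ y ∈ HV, (∀ w ∈ W, G.dist x w = G.dist y w) → x = y
  DE : ∀ f ∈ HE, ∀ g ∈ HE, (∀ w ∈ W, ed G f w = ed G g w) → f = g
  cnt : (W \ S).card + HV.card ≤ HE.card + 1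

variable {G : SimpleGraph V} {S W HV : Finset V} {HE : Finset (Sym2 V)}

theorem IV.mono {W' : Finset V} (hW : W ⊆ W') {x : V} (h : IV G W x) : IV G W' x := by
  obtain ⟨w, hw, w', hw', h⟩ := h
  exact ⟨w, hW hw, w', hW hw', h⟩

theorem IE.mono {W' : Finset V} (hW : W ⊆ W') {f : Sym2 V} (h : IE G W f) : IE G W' f := by
  obtain ⟨w, hw, w', hw', h⟩ := h
  exact ⟨w, hW hw, w', hW hw', h⟩

theorem IV.of_eq {x y : V} (h : IV G W y) (he : ∀ w ∈ W, G.dist x w = G.dist y w) :
    IV G W x := by
  obtain ⟨w, hw, w', hw', h⟩ := h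
  exact ⟨w, hw, w', hw', by rw [he w hw, he w' hw']; exact h⟩

theorem IE.of_eq {f g : Sym2 V} (h : IE G W g) (he : ∀ w ∈ W, ed G f w = ed G g w) :
    IE G W f := by
  obtain ⟨w, hw, w', hw', h⟩ := h
  exact ⟨w, hw, w', hw', by rw [he w hw, he w' hw']; exact h⟩

/-- double resolution -/
theorem IsCfg.dd (hG : G.Connected) (h : IsCfg G S W HV HE) {u v : V} (hu : u ∈ HV)
    (hv : v ∈ HV) {α β : ℕ} (he : ∀ w ∈ W, G.dist u w + α = G.dist v w + β) :
    u = v ∧ α = β := by
  have h1 : β ≤ α := by
    obtain ⟨w, hw, w', hw', h0⟩ := h.BV u hu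
    have e1 := he w hw
    have e2 := he w' hw'
    have e3 := tri hG w v w'
    have e4 : G.dist w v = G.dist v w := SimpleGraph.dist_comm
    omega
  have h2 : α ≤ β := by
    obtain ⟨w, hw, w', hw', h0⟩ := h.BV v hv
    have e1 := he w hw
    have e2 := he w' hw'
    have e3 := tri hG w u w'
    have e4 : G.dist w u = G.dist u w := SimpleGraph.dist_comm
    omega
  refine ⟨h.DV u hu v hv fun w hw => ?_, by omega⟩
  have := he w hw
  omega

theorem IsCfg.extend (h : IsCfg G S W HV HE) {A : Finset V} {F : Finset (Sym2 V)} {t : V}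
    (hA : ∀ x ∈ A, x ∉ HV) (hF : ∀ f ∈ F, f ∉ HE ∧ f ∈ G.edgeSet ∧ ∀ x ∈ f, x ∈ HV ∪ A)
    (ht : t ∈ HV ∪ A)
    (bA : ∀ x ∈ A, IV G (insert t W) x) (bF : ∀ f ∈ F, IE G (insert t W) f)
    (dA : ∀ x ∈ A, ∀ y ∈ A, (∀ w ∈ insert t W, G.dist x w = G.dist y w) → x = y)
    (dAH : ∀ x ∈ A, ∀ y ∈ HV, ¬ ∀ w ∈ insert t W, G.dist x w = G.dist y w)
    (dF : ∀ f ∈ F, ∀ g ∈ F, (∀ w ∈ insert t W, ed G f w = ed G g w) → f = g)
    (dFH : ∀ f ∈ F, ∀ g ∈ HE, ¬ ∀ w ∈ insert t W, ed G f w = ed G g w)
    (hc : (insert t W \ S).card + A.card ≤ (W \ S).card + F.card) :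
    IsCfg G S (insert t W) (HV ∪ A) (HE ∪ F) where
  WH := by
    intro x hx
    rcases Finset.mem_insert.1 hx with rfl | hx
    · exact ht
    · exact Finset.mem_union_left _ (h.WH hx)
  adj := by
    intro f hf
    rcases Finset.mem_union.1 hf with hf | hf
    · exact h.adj f hf
    · exact (hF f hf).2.1
  inc := by
    intro f hf x hx
    rcases Finset.mem_union.1 hf with hf | hf
    · exact Finset.mem_union_left _ (h.inc f hf x hx)
    · exact (hF f hf).2.2 x hx
  BV := by
    intro x hx
    rcases Finset.mem_union.1 hx with hx | hx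
    · exact (h.BV x hx).mono (Finset.subset_insert _ _)
    · exact bA x hx
  BE := by
    intro f hf
    rcases Finset.mem_union.1 hf with hf | hf
    · exact (h.BE f hf).mono (Finset.subset_insert _ _)
    · exact bF f hf
  DV := by
    intro x hx y hy he
    rcases Finset.mem_union.1 hx with hx | hx <;> rcases Finset.mem_union.1 hy with hy | hy
    · exact h.DV x hx y hy fun w hw => he w (Finset.mem_insert_of_mem hw)
    · exact absurd (fun w hw => (he w hw).symm) (dAH y hy x hx)
    · exact absurd he (dAH x hx y hy)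
    · exact dA x hx y hy he
  DE := by
    intro f hf g hg he
    rcases Finset.mem_union.1 hf with hf | hf <;> rcases Finset.mem_union.1 hg with hg | hg
    · exact h.DE f hf g hg fun w hw => he w (Finset.mem_insert_of_mem hw)
    · exact absurd (fun w hw => (he w hw).symm) (dFH g hg f hf)
    · exact absurd he (dFH f hf g hg)
    · exact dF f hf g hg he
  cnt := by
    have h1 := Finset.card_union_le HV A
    have h2 : (HE ∪ F).card = HE.card + F.card :=
      Finset.card_union_of_disjoint (Finset.disjoint_left.2 fun f hf hf' => (hF f hf').1 hf)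
    have h3 := h.cnt
    omega

/-- The measure which is maximised. -/
def mu (S W HV : Finset V) (HE : Finset (Sym2 V)) : ℕ := HV.card + HE.card + (W ∩ S).card

def IsMax (G : SimpleGraph V) (S W HV : Finset V) (HE : Finset (Sym2 V)) : Prop :=
  IsCfg G S W HV HE ∧ ∀ W' HV' HE', IsCfg G S W' HV' HE' → mu S W' HV' HE' ≤ mu S W HV HE

theorem IsMax.no_ext (h : IsMax G S W HV HE) {A : Finset V} {F : Finset (Sym2 V)} {t : V}
    (hA : ∀ x ∈ A, x ∉ HV) (hF : ∀ f ∈ F, f ∉ HE ∧ f ∈ G.edgeSet ∧ ∀ x ∈ f, x ∈ HV ∪ A)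
    (ht : t ∈ HV ∪ A)
    (bA : ∀ x ∈ A, IV G (insert t W) x) (bF : ∀ f ∈ F, IE G (insert t W) f)
    (dA : ∀ x ∈ A, ∀ y ∈ A, (∀ w ∈ insert t W, G.dist x w = G.dist y w) → x = y)
    (dAH : ∀ x ∈ A, ∀ y ∈ HV, ¬ ∀ w ∈ insert t W, G.dist x w = G.dist y w)
    (dF : ∀ f ∈ F, ∀ g ∈ F, (∀ w ∈ insert t W, ed G f w = ed G g w) → f = g)
    (dFH : ∀ f ∈ F, ∀ g ∈ HE, ¬ ∀ w ∈ insert t W, ed G f w = ed G g w)
    (hc : (insert t W \ S).card + A.card ≤ (W \ S).card + F.card)
    (hne : F.Nonempty ∨ (t ∈ S ∧ t ∉ W)) : False := by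
  have h1 := h.2 _ _ _ (h.1.extend hA hF ht bA bF dA dAH dF dFH hc)
  unfold mu at h1
  have h2 : (HE ∪ F).card = HE.card + F.card :=
    Finset.card_union_of_disjoint (Finset.disjoint_left.2 fun f hf hf' => (hF f hf').1 hf)
  have h3 : HV.card ≤ (HV ∪ A).card := Finset.card_le_card Finset.subset_union_left
  have h4 : (W ∩ S).card ≤ (insert t W ∩ S).card :=
    Finset.card_le_card (Finset.inter_subset_inter_right (Finset.subset_insert _ _))
  rcases hne with hne | ⟨hne1, hne2⟩
  · have := hne.card_pos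
    omega
  · have h5 : (W ∩ S).card < (insert t W ∩ S).card := by
      apply Finset.card_lt_card
      refine ⟨Finset.inter_subset_inter_right (Finset.subset_insert _ _), fun hh => ?_⟩
      have : t ∈ W ∩ S := hh (Finset.mem_inter.2 ⟨Finset.mem_insert_self _ _, hne1⟩)
      exact hne2 (Finset.mem_inter.1 this).1
    omega

theorem exists_isMax [Fintype V] (G : SimpleGraph V) (S : Finset V) (s₀ : V) (hs : s₀ ∈ S) :
    ∃ W HV HE, IsMax G S W HV HE := by
  classical
  have h0 : IsCfg G S {s₀} {s₀} ∅ :=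
    { WH := subset_rfl
      adj := by simp
      inc := by simp
      BV := by
        intro x hx
        rw [Finset.mem_singleton] at hx
        subst hx
        exact ⟨x, by simp, x, by simp, by simp⟩
      BE := by simp
      DV := by
        intro x hx y hy _
        rw [Finset.mem_singleton] at hx hy
        rw [hx, hy]
      DE := by simp
      cnt := by
        have : ({s₀} : Finset V) \ S = ∅ := by
          rw [Finset.sdiff_eq_empty_iff_subset, Finset.singleton_subset_iff]
          exact hs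
        rw [this]
        simp }
  obtain ⟨c, hc1, hc2⟩ := Finset.exists_max_image
    (Finset.univ.filter fun c : Finset V × Finset V × Finset (Sym2 V) =>
      IsCfg G S c.1 c.2.1 c.2.2) (fun c => mu S c.1 c.2.1 c.2.2)
    ⟨({s₀}, {s₀}, ∅), by simpa using h0⟩
  refine ⟨c.1, c.2.1, c.2.2, (Finset.mem_filter.1 hc1).2, fun W' HV' HE' h' => ?_⟩
  exact hc2 (W', HV', HE') (by simpa using h')

theorem card_insert_sdiff_le (t : V) (S W : Finset V) :
    (insert t W \ S).card ≤ (W \ S).card + 1 := by
  have h1 : insert t W \ S ⊆ insert t (W \ S) := by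
    intro x hx
    rw [Finset.mem_sdiff, Finset.mem_insert] at hx
    rw [Finset.mem_insert, Finset.mem_sdiff]
    tauto
  exact (Finset.card_le_card h1).trans (Finset.card_insert_le _ _)

theorem ed_self_eq_zero {f : Sym2 V} {t : V} (ht : t ∈ f) : ed G f t = 0 := by
  have h1 := ed_le (G := G) ht t
  rw [SimpleGraph.dist_self] at h1
  omega

theorem mem_of_ed_eq_zero (hG : G.Connected) {f : Sym2 V} {t : V} (h : ed G f t = 0) : t ∈ f := by
  obtain ⟨x, hx, hx'⟩ := ed_attain (G := G) (f := f) t
  have : x = t := dist_zero hG (by omega)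
  exact this ▸ hx

/-- Steps A1 and C: every edge inside `HV` belongs to `HE`. -/
theorem IsMax.inner (hG : G.Connected) (h : IsMax G S W HV HE) {f : Sym2 V}
    (hf : f ∈ G.edgeSet) (hin : ∀ x ∈ f, x ∈ HV) : f ∈ HE := by
  by_contra hfE
  have hcount : ∀ t : V, (insert t W \ S).card + (∅ : Finset V).card ≤
      (W \ S).card + ({f} : Finset (Sym2 V)).card := by
    intro t
    have := card_insert_sdiff_le t S W
    simpa using this
  by_cases hIE : IE G W f
  · -- f is on a geodesic
    by_cases hg : ∃ g ∈ HE, ∀ w ∈ W, ed G g w = ed G f w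
    · obtain ⟨g, hg, hgf⟩ := hg
      have hfg : f ≠ g := fun e => hfE (e ▸ hg)
      obtain ⟨t, htf, htg⟩ : ∃ t ∈ f, t ∉ g := by
        induction f using Sym2.ind with
        | _ a b =>
          by_contra hcon
          push Not at hcon
          have hab : a ≠ b := (SimpleGraph.mem_edgeSet G |>.1 hf).ne
          exact hfg ((Sym2.mem_and_mem_iff hab).1
            ⟨hcon a (by simp), hcon b (by simp)⟩).symm
      refine h.no_ext (A := ∅) (F := {f}) (t := t) (by simp) ?_ ?_ (by simp) ?_ (by simp) (by simp)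
        (by simp) ?_ (hcount t) (Or.inl (by simp))
      · intro f' hf'
        rw [Finset.mem_singleton.1 hf']
        exact ⟨hfE, hf, fun x hx => Finset.mem_union_left _ (hin x hx)⟩
      · exact Finset.mem_union_left _ (hin t htf)
      · intro f' hf'
        rw [Finset.mem_singleton.1 hf']
        exact hIE.mono (Finset.subset_insert _ _)
      · intro f' hf' g' hg' he
        rw [Finset.mem_singleton.1 hf'] at he
        have : g = g' := h.1.DE g hg g' hg' fun w hw => by
          rw [hgf w hw, he w (Finset.mem_insert_of_mem hw)]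
        subst this
        have h1 := he t (Finset.mem_insert_self _ _)
        rw [ed_self_eq_zero htf] at h1
        exact htg (mem_of_ed_eq_zero hG h1.symm)
    · obtain ⟨t, htf⟩ : ∃ t, t ∈ f := ⟨f.out.1, Sym2.out_fst_mem f⟩
      refine h.no_ext (A := ∅) (F := {f}) (t := t) (by simp) ?_ ?_ (by simp) ?_ (by simp) (by simp)
        (by simp) ?_ (hcount t) (Or.inl (by simp))
      · intro f' hf'
        rw [Finset.mem_singleton.1 hf']
        exact ⟨hfE, hf, fun x hx => Finset.mem_union_left _ (hin x hx)⟩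
      · exact Finset.mem_union_left _ (hin t htf)
      · intro f' hf'
        rw [Finset.mem_singleton.1 hf']
        exact hIE.mono (Finset.subset_insert _ _)
      · intro f' hf' g' hg' he
        rw [Finset.mem_singleton.1 hf'] at he
        exact hg ⟨g', hg', fun w hw => (he w (Finset.mem_insert_of_mem hw)).symm⟩
  · -- f is not on a geodesic
    obtain ⟨t, htf, w, hw, hIE'⟩ : ∃ t ∈ f, ∃ w ∈ W, ed G f w + 1 = G.dist t w := by
      induction f using Sym2.ind with
      | _ a b =>
        have hadj : G.Adj a b := (SimpleGraph.mem_edgeSet G).1 hf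
        have hex : ∃ w ∈ W, G.dist a w ≠ G.dist b w := by
          by_contra hcon
          push Not at hcon
          exact hadj.ne (h.1.DV a (hin a (by simp)) b (hin b (by simp)) hcon)
        obtain ⟨w, hw, hne⟩ := hex
        have h1 := adj_le hG hadj w
        have h2 := adj_le hG hadj.symm w
        rcases lt_or_gt_of_ne hne with h3 | h3
        · exact ⟨b, by simp, w, hw, by rw [ed_mk]; omega⟩
        · exact ⟨a, by simp, w, hw, by rw [ed_mk]; omega⟩
    refine h.no_ext (A := ∅) (F := {f}) (t := t) (by simp) ?_ ?_ (by simp) ?_ (by simp) (by simp)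
      (by simp) ?_ (hcount t) (Or.inl (by simp))
    · intro f' hf'
      rw [Finset.mem_singleton.1 hf']
      exact ⟨hfE, hf, fun x hx => Finset.mem_union_left _ (hin x hx)⟩
    · exact Finset.mem_union_left _ (hin t htf)
    · intro f' hf'
      rw [Finset.mem_singleton.1 hf']
      refine ⟨t, Finset.mem_insert_self _ _, w, Finset.mem_insert_of_mem hw, ?_⟩
      rw [ed_self_eq_zero htf]
      omega
    · intro f' hf' g' hg' he
      rw [Finset.mem_singleton.1 hf'] at he
      exact hIE ((h.1.BE g' hg').of_eq fun w hw => he w (Finset.mem_insert_of_mem hw))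

end Pool.Agent.H9.MD
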