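import Pool.Agent.H9.MD.Steps

/-!
In a maximal configuration every vertex has a unique exit into `HV`.
-/

set_option autoImplicit false

namespace Pool.Agent.H9.MD

open Finset

variable {V : Type} [DecidableEq V]
variable {G : SimpleGraph V} {S W HV : Finset V} {HE : Finset (Sym2 V)}

/-- `u` is the only exit of `x`, towards all observers. -/
def Uniq (G : SimpleGraph V) (W HV : Finset V) (x u : V) : Prop :=
  ∀ w ∈ W, ∀ e A F, Out G HV w x e A F → e = u

theorem uniq_of_mem {x : V} (hx : x ∈ HV) : Uniq G W HV x x := by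
  intro w _ e A F ho
  exact ho.of_mem hx

theorem Uniq.spec (hG : G.Connected) (hWH : W ⊆ HV) (hW : W.Nonempty) {x u : V}
    (h : Uniq G W HV x u) :
    u ∈ HV ∧ ∀ w ∈ W, G.dist x w = G.dist x u + G.dist u w := by
  constructor
  · obtain ⟨w, hw⟩ := hW
    obtain ⟨e, A, F, ho⟩ := exists_out hG (hWH hw) x
    rw [← h w hw e A F ho]
    exact ho.end_mem
  · intro w hw
    obtain ⟨e, A, F, ho⟩ := exists_out hG (hWH hw) x
    rw [← h w hw e A F ho]
    exact (ho.geo hG).2.symm

theorem Uniq.sub {x u w e : V} {A : Finset V} {F : Finset (Sym2 V)} (hw : w ∈ W)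
    (ho : Out G HV w x e A F) {z v : V} (hz : z ∈ A ∨ z = e) (hv : Uniq G W HV z v) : v = e := by
  rcases hz with hz | rfl
  · obtain ⟨A', F', ho'⟩ := ho.sub z hz
    exact (hv w hw e A' F' ho').symm
  · exact (hv w hw z ∅ ∅ (Out.here ho.end_mem)).symm

theorem IsMax.uniq (hG : G.Connected) (h : IsMax G S W HV HE) (hW : W.Nonempty) [Fintype V]
    (t : V) : ∃ u, Uniq G W HV t u := by
  classical
  by_contra hcon
  obtain ⟨s₀, hs₀⟩ := hW
  have hWH := h.1.WH
  -- a vertex with two exits, nearest to s₀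
  obtain ⟨t, ht, hmin⟩ := Finset.exists_min_image
    (Finset.univ.filter fun t : V => ¬ ∃ u, Uniq G W HV t u) (fun t => G.dist t s₀)
    ⟨t, by simpa using hcon⟩
  have ht : ¬ ∃ u, Uniq G W HV t u := (Finset.mem_filter.1 ht).2
  have hlow : ∀ z, G.dist z s₀ < G.dist t s₀ → ∃ u, Uniq G W HV z u := by
    intro z hz
    by_contra hz'
    have := hmin z (by simpa using hz')
    omega
  have htH : t ∉ HV := fun hh => ht ⟨t, uniq_of_mem hh⟩
  have hts : t ≠ s₀ := by rintro rfl; exact htH (hWH hs₀)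
  have hW' : W.Nonempty := ⟨s₀, hs₀⟩
  -- the choice of the two directions
  have hpair : ∃ x₁ u y₁ v w', G.Adj t x₁ ∧ G.dist x₁ s₀ + 1 = G.dist t s₀ ∧
      Uniq G W HV x₁ u ∧ G.Adj t y₁ ∧ w' ∈ W ∧ G.dist y₁ w' + 1 = G.dist t w' ∧
      (∃ A F, Out G HV w' y₁ v A F) ∧ u ≠ v ∧
      ∃ w ∈ W, ed G s(t, x₁) w ≠ ed G s(t, y₁) w := by
    obtain ⟨x₁, hx1, hx2⟩ := closer hG hts
    obtain ⟨u, hu⟩ := hlow x₁ (by omega)
    have hnu : ¬ Uniq G W HV t u := fun hh => ht ⟨u, hh⟩
    unfold Uniq at hnu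
    push Not at hnu
    obtain ⟨w', hw', v, A, F, ho, hvu⟩ := hnu
    cases ho with
    | here hx => exact absurd hx htH
    | @step _ y₁ _ A F _ hy1 hy2 ho =>
      by_cases hres : ∃ w ∈ W, ed G s(t, x₁) w ≠ ed G s(t, y₁) w
      · exact ⟨x₁, u, y₁, v, w', hx1, hx2, hu, hy1, hw', hy2, ⟨A, F, ho⟩, hvu.symm, hres⟩
      · push Not at hres
        have h1 := hres s₀ hs₀
        rw [ed_mk, ed_mk] at h1
        have hy3 : G.dist y₁ s₀ + 1 = G.dist t s₀ := by
          have := adj_le hG hy1 s₀
          omega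
        obtain ⟨v', hv'⟩ := hlow y₁ (by omega)
        have hvv : v = v' := hv' w' hw' v A F ho
        subst hvv
        obtain ⟨huH, hux⟩ := hu.spec hG hWH hW'
        obtain ⟨hvH, hvy⟩ := hv'.spec hG hWH hW'
        obtain ⟨w, hw, hne⟩ : ∃ w ∈ W, G.dist x₁ w ≠ G.dist y₁ w := by
          by_contra hall
          push Not at hall
          exact hvu ((h.1.dd hG huH hvH (α := G.dist x₁ u) (β := G.dist y₁ v) fun w hw => by
            have e1 := hall w hw
            have e2 := hux w hw
            have e3 := hvy w hw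
            omega).1).symm
        have h2 := hres w hw
        rw [ed_mk, ed_mk] at h2
        have htw : t ≠ w := by rintro rfl; exact htH (hWH hw)
        obtain ⟨z₁, hz1, hz2⟩ := closer hG htw
        obtain ⟨e, A', F', ho'⟩ := exists_out hG (hWH hw) z₁
        by_cases heu : e = u
        · subst heu
          refine ⟨y₁, v, z₁, e, w, hy1, hy3, hv', hz1, hw, hz2, ⟨A', F', ho'⟩, hvu, w, hw, ?_⟩
          rw [ed_mk, ed_mk]
          omega
        · refine ⟨x₁, u, z₁, e, w, hx1, hx2, hu, hz1, hw, hz2, ⟨A', F', ho'⟩,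
            fun hh => heu hh.symm, w, hw, ?_⟩
          rw [ed_mk, ed_mk]
          omega
  obtain ⟨x₁, u, y₁, v, w', hx1, hx2, hu, hy1, hw', hy2, ⟨A₂, F₂, ho₂⟩, huv, hres⟩ := hpair
  obtain ⟨e, A₁, F₁, ho₁⟩ := exists_out hG (hWH hs₀) x₁
  have heu : e = u := hu s₀ hs₀ e A₁ F₁ ho₁
  subst heu
  have P1 := Out.step htH hx1 hx2 ho₁
  have P2 := Out.step htH hy1 hy2 ho₂
  have huH := ho₁.end_mem
  have hvH := ho₂.end_mem
  have htt : t ∈ insert t W := Finset.mem_insert_self _ _
  -- vertices of the first segment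
  have hA1 : ∀ z, z ∈ A₁ ∨ z = e → Uniq G W HV z e := by
    intro z hz
    have hz' : ∃ v, Uniq G W HV z v := by
      rcases hz with hz | rfl
      · refine hlow z ?_
        have := (ho₁.vert z hz).2.1
        omega
      · exact ⟨z, uniq_of_mem huH⟩
    obtain ⟨v', hv'⟩ := hz'
    have := Uniq.sub (u := e) hs₀ ho₁ hz hv'
    exact this ▸ hv'
  have hA2 : ∀ z, z ∈ A₂ ∨ z = v → G.dist z s₀ < G.dist t s₀ → Uniq G W HV z v := by
    intro z hz hzs
    obtain ⟨v', hv'⟩ := hlow z hzs
    have := Uniq.sub (u := v) hw' ho₂ hz hv'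
    exact this ▸ hv'
  -- two vertices with exits e, v are resolved
  have hddV : ∀ z z', Uniq G W HV z e → Uniq G W HV z' v →
      ¬ ∀ w ∈ W, G.dist z w = G.dist z' w := by
    intro z z' hz hz' hall
    obtain ⟨-, h1⟩ := hz.spec hG hWH hW'
    obtain ⟨-, h2⟩ := hz'.spec hG hWH hW'
    exact huv (h.1.dd hG huH hvH (α := G.dist z e) (β := G.dist z' v) fun w hw => by
      have e1 := hall w hw
      have e2 := h1 w hw
      have e3 := h2 w hw
      omega).1
  have hcrossV : ∀ z ∈ A₁, ∀ z' ∈ A₂, ¬ ∀ w ∈ insert t W, G.dist z w = G.dist z' w := by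
    intro z hz z' hz' hall
    have h1 := hall s₀ (Finset.mem_insert_of_mem hs₀)
    have h2 := (ho₁.vert z hz).2.1
    exact hddV z z' (hA1 z (Or.inl hz)) (hA2 z' (Or.inl hz') (by omega))
      fun w hw => hall w (Finset.mem_insert_of_mem hw)
  have htA1 : t ∉ A₁ := by
    intro hh
    have := (ho₁.vert t hh).2.1
    omega
  have htA2 : t ∉ A₂ := by
    intro hh
    have := (ho₂.vert t hh).2.1
    omega
  -- edges of F₁ and F₂ do not contain t
  have htF1 : ∀ f ∈ F₁, t ∉ f := by
    intro f hf htf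
    obtain ⟨p, q, rfl, -, h2, h3, -⟩ := ho₁.edge hG f hf
    rcases Sym2.mem_iff.1 htf with rfl | rfl
    · exact htA1 h2
    · rcases h3 with h3 | rfl
      · exact htA1 h3
      · exact htH huH
  have htF2 : ∀ f ∈ F₂, t ∉ f := by
    intro f hf htf
    obtain ⟨p, q, rfl, -, h2, h3, -⟩ := ho₂.edge hG f hf
    rcases Sym2.mem_iff.1 htf with rfl | rfl
    · exact htA2 h2
    · rcases h3 with h3 | rfl
      · exact htA2 h3
      · exact htH hvH
  have hcrossE : ∀ f ∈ insert s(t, x₁) F₁, ∀ g ∈ insert s(t, y₁) F₂,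
      ¬ ∀ w ∈ insert t W, ed G f w = ed G g w := by
    intro f hf g hg hall
    rcases Finset.mem_insert.1 hf with h1 | h1 <;> rcases Finset.mem_insert.1 hg with h2 | h2
    · obtain ⟨w, hw, hne⟩ := hres
      have := hall w (Finset.mem_insert_of_mem hw)
      rw [h1, h2] at this
      exact hne this
    · have h3 := hall t htt
      rw [h1, ed_self_eq_zero (by simp)] at h3
      exact htF2 g h2 (mem_of_ed_eq_zero hG h3.symm)
    · have h3 := hall t htt
      rw [h2, ed_self_eq_zero (f := s(t, y₁)) (by simp)] at h3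
      exact htF1 f h1 (mem_of_ed_eq_zero hG h3)
    · obtain ⟨p, p', rfl, hadjp, hp, hp', hpd, -⟩ := ho₁.edge hG f h1
      obtain ⟨q, q', rfl, hadjq, hq, hq', -⟩ := ho₂.edge hG g h2
      have h3 := hall s₀ (Finset.mem_insert_of_mem hs₀)
      rw [ed_mk, ed_mk] at h3
      have h4 := (ho₁.vert p hp).2.1
      have h5 := adj_le hG hadjq s₀
      have h6 := adj_le hG hadjq.symm s₀
      have hq1 := hA2 q (Or.inl hq) (by omega)
      have hq2 := hA2 q' hq' (by omega)
      have hp1 := hA1 p (Or.inl hp)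
      have hp2 := hA1 p' hp'
      obtain ⟨-, k1⟩ := hp1.spec hG hWH hW'
      obtain ⟨-, k2⟩ := hp2.spec hG hWH hW'
      obtain ⟨-, k3⟩ := hq1.spec hG hWH hW'
      obtain ⟨-, k4⟩ := hq2.spec hG hWH hW'
      exact huv (h.1.dd hG huH hvH (α := min (G.dist p e) (G.dist p' e))
        (β := min (G.dist q v) (G.dist q' v)) fun w hw => by
          have e1 := hall w (Finset.mem_insert_of_mem hw)
          rw [ed_mk, ed_mk] at e1
          have e2 := k1 w hw
          have e3 := k2 w hw
          have e4 := k3 w hw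
          have e5 := k4 w hw
          omega).1
  -- general facts on the two segments
  have hgen : ∀ {w e : V} {A : Finset V} {F : Finset (Sym2 V)}, w ∈ W →
      Out G HV w t e A F → (∀ x ∈ A, x ∉ HV) ∧
      (∀ f ∈ F, f ∉ HE ∧ f ∈ G.edgeSet ∧ ∀ x ∈ f, x ∈ HV ∨ x ∈ A) ∧
      (∀ x ∈ A, IV G (insert t W) x) ∧ (∀ f ∈ F, IE G (insert t W) f) ∧
      (∀ x ∈ A, ∀ y ∈ A, G.dist x t = G.dist y t → x = y) ∧
      (∀ f ∈ F, ∀ g ∈ F, ed G f t = ed G g t → f = g) := by
    intro w e A F hw ho
    have hgeo := ho.geo hG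
    refine ⟨fun x hx => (ho.vert x hx).1, ?_, ?_, ?_, ?_, ?_⟩
    · intro f hf
      obtain ⟨p, q, rfl, h1, h2, h3, h4, h5, h6⟩ := ho.edge hG f hf
      refine ⟨fun hE => (ho.vert p h2).1 (h.1.inc _ hE p (by simp)), h1, ?_⟩
      intro x hx
      rcases Sym2.mem_iff.1 hx with rfl | rfl
      · exact Or.inr h2
      · rcases h3 with h3 | rfl
        · exact Or.inr h3
        · exact Or.inl ho.end_mem
    · intro x hx
      refine ⟨t, htt, w, Finset.mem_insert_of_mem hw, ?_⟩
      have h1 := hgeo.1 x hx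
      have h3 : G.dist x t = G.dist t x := SimpleGraph.dist_comm
      omega
    · intro f hf
      refine ⟨t, htt, w, Finset.mem_insert_of_mem hw, ?_⟩
      have h1 := (ho.ed_w hG f hf).1
      omega
    · intro x hx y hy he
      have h2 := hgeo.1 x hx
      have h3 := hgeo.1 y hy
      have h4 : G.dist x t = G.dist t x := SimpleGraph.dist_comm
      have h5 : G.dist y t = G.dist t y := SimpleGraph.dist_comm
      exact ho.vert_inj x hx y hy (by omega)
    · intro f hf g hg he
      have h4 := (ho.ed_w hG f hf).1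
      have h5 := (ho.ed_w hG g hg).1
      exact ho.edge_inj hG f hf g hg (by omega)
  obtain ⟨a1, a2, a3, a4, a5, a6⟩ := hgen hs₀ P1
  obtain ⟨b1, b2, b3, b4, b5, b6⟩ := hgen hw' P2
  have hdt : G.dist t t = 0 := SimpleGraph.dist_self
  refine h.no_ext (A := insert t A₁ ∪ insert t A₂)
    (F := insert s(t, x₁) F₁ ∪ insert s(t, y₁) F₂) (t := t) ?_ ?_ ?_ ?_ ?_ ?_ ?_ ?_ ?_ ?_
    (Or.inl (by simp))
  · intro x hx
    rcases Finset.mem_union.1 hx with hx | hx
    · exact a1 x hx
    · exact b1 x hx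
  · intro f hf
    rcases Finset.mem_union.1 hf with hf | hf
    · obtain ⟨k1, k2, k3⟩ := a2 f hf
      refine ⟨k1, k2, fun x hx => ?_⟩
      rcases k3 x hx with k | k
      · exact Finset.mem_union_left _ k
      · exact Finset.mem_union_right _ (Finset.mem_union_left _ k)
    · obtain ⟨k1, k2, k3⟩ := b2 f hf
      refine ⟨k1, k2, fun x hx => ?_⟩
      rcases k3 x hx with k | k
      · exact Finset.mem_union_left _ k
      · exact Finset.mem_union_right _ (Finset.mem_union_right _ k)
  · exact Finset.mem_union_right _ (by simp)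
  · intro x hx
    rcases Finset.mem_union.1 hx with hx | hx
    · exact a3 x hx
    · exact b3 x hx
  · intro f hf
    rcases Finset.mem_union.1 hf with hf | hf
    · exact a4 f hf
    · exact b4 f hf
  · -- dA
    have hx' : ∀ x ∈ insert t A₁, ∀ y ∈ insert t A₂,
        (∀ w ∈ insert t W, G.dist x w = G.dist y w) → x = y := by
      intro x hx y hy he
      rcases Finset.mem_insert.1 hx with h1 | h1 <;> rcases Finset.mem_insert.1 hy with h2 | h2
      · rw [h1, h2]
      · have h3 := he t htt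
        rw [h1] at h3 ⊢
        exact (dist_zero hG (by omega : G.dist y t = 0)).symm
      · have h3 := he t htt
        rw [h2] at h3 ⊢
        exact dist_zero hG (by omega)
      · exact absurd he (hcrossV x h1 y h2)
    intro x hx y hy he
    rcases Finset.mem_union.1 hx with hx | hx <;> rcases Finset.mem_union.1 hy with hy | hy
    · exact a5 x hx y hy (he t htt)
    · exact hx' x hx y hy he
    · exact (hx' y hy x hx fun w hw => (he w hw).symm).symm
    · exact b5 x hx y hy (he t htt)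
  · intro x hx y hy he
    have hxH : x ∉ HV := by
      rcases Finset.mem_union.1 hx with hx | hx
      · exact a1 x hx
      · exact b1 x hx
    exact hxH (h.cv hG ((h.1.BV y hy).of_eq
      fun w hw => he w (Finset.mem_insert_of_mem hw)))
  · -- dF
    intro x hx y hy he
    rcases Finset.mem_union.1 hx with hx | hx <;> rcases Finset.mem_union.1 hy with hy | hy
    · exact a6 x hx y hy (he t htt)
    · exact absurd he (hcrossE x hx y hy)
    · exact absurd (fun w hw => (he w hw).symm) (hcrossE y hy x hx)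
    · exact b6 x hx y hy (he t htt)
  · intro f hf g hg he
    have hfE : f ∉ HE ∧ f ∈ G.edgeSet := by
      rcases Finset.mem_union.1 hf with hf | hf
      · exact ⟨(a2 f hf).1, (a2 f hf).2.1⟩
      · exact ⟨(b2 f hf).1, (b2 f hf).2.1⟩
    exact hfE.1 (h.ce hG hfE.2 ((h.1.BE g hg).of_eq
      fun w hw => he w (Finset.mem_insert_of_mem hw)))
  · -- count
    have c1 := P1.card hG
    have c2 := P2.card hG
    have c3 : insert t A₁ ∪ insert t A₂ = insert t (A₁ ∪ A₂) := by
      ext x; simp only [Finset.mem_union, Finset.mem_insert]; tauto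
    have c4 : (insert s(t, x₁) F₁ ∪ insert s(t, y₁) F₂).card =
        (insert s(t, x₁) F₁).card + (insert s(t, y₁) F₂).card := by
      refine Finset.card_union_of_disjoint (Finset.disjoint_left.2 fun f hf hf' => ?_)
      exact hcrossE f hf f hf' fun _ _ => rfl
    have c5 := Finset.card_insert_le t (A₁ ∪ A₂)
    have c6 := Finset.card_union_le A₁ A₂
    have c7 := card_insert_sdiff_le t S W
    rw [Finset.card_insert_of_notMem htA1] at c1
    rw [Finset.card_insert_of_notMem htA2] at c2
    rw [c3, c4]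
    omega

end Pool.Agent.H9.MD
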