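import Pool.Agent.H9.MD.Exit

/-!
Every resolving set (for vertices or for edges) extends, by at most `|E| - |V| + 1` vertices, to a
set resolving both the vertices and the edges.
-/

set_option autoImplicit false

namespace Pool.Agent.H9.MD

open Finset

variable {V : Type} [DecidableEq V]
variable {G : SimpleGraph V} {S W HV : Finset V} {HE : Finset (Sym2 V)}

theorem IsMax.nonempty {s₀ : V} (hs : s₀ ∈ S) (h : IsMax G S W HV HE) : W.Nonempty := by
  rw [Finset.nonempty_iff_ne_empty]
  rintro rfl
  have h1 : HV = ∅ := by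
    rw [Finset.eq_empty_iff_forall_notMem]
    intro x hx
    obtain ⟨w, hw, -⟩ := h.1.BV x hx
    simp at hw
  have h2 : HE = ∅ := by
    rw [Finset.eq_empty_iff_forall_notMem]
    intro x hx
    obtain ⟨w, hw, -⟩ := h.1.BE x hx
    simp at hw
  have h0 : IsCfg G S {s₀} {s₀} ∅ :=
    { WH := subset_rfl
      adj := by simp
      inc := by simp
      BV := by
        intro x hx
        rw [Finset.mem_singleton] at hx
        subst hx
        exact ⟨x, by simp, x, by simp, by simp⟩
      BE := by simp
      DV := by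
        intro x hx y hy _
        rw [Finset.mem_singleton] at hx hy
        rw [hx, hy]
      DE := by simp
      cnt := by
        have : ({s₀} : Finset V) \ S = ∅ := by
          rw [Finset.sdiff_eq_empty_iff_subset, Finset.singleton_subset_iff]
          exact hs
        rw [this]
        simp }
  have h3 := h.2 _ _ _ h0
  rw [h1, h2] at h3
  unfold mu at h3
  simp at h3

/-- Adjacent vertices outside have the same exit. -/
theorem IsMax.adj_exit (hG : G.Connected) (h : IsMax G S W HV HE) (hW : W.Nonempty)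
    {x y u v : V} (hxy : G.Adj x y) (hx : x ∉ HV) (hu : Uniq G W HV x u)
    (hv : Uniq G W HV y v) : u = v := by
  have hWH := h.1.WH
  have key : ∀ {x y u v : V}, G.Adj x y → x ∉ HV → Uniq G W HV x u → Uniq G W HV y v →
      (∃ w ∈ W, G.dist y w + 1 = G.dist x w) → u = v := by
    intro x y u v hxy hx hu hv hw
    obtain ⟨w, hw, hd⟩ := hw
    obtain ⟨e, A, F, ho⟩ := exists_out hG (hWH hw) y
    rw [← hv w hw e A F ho]
    exact (hu w hw e _ _ (Out.step hx hxy hd ho)).symm
  by_cases h1 : ∃ w ∈ W, G.dist y w + 1 = G.dist x w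
  · exact key hxy hx hu hv h1
  · push Not at h1
    by_cases hy : y ∈ HV
    · exfalso
      apply hx
      apply h.cv hG
      obtain ⟨w, hw, w', hw', h2⟩ := h.1.BV y hy
      refine ⟨w, hw, w', hw', ?_⟩
      have a1 := adj_le hG hxy w
      have a2 := adj_le hG hxy w'
      have a3 := h1 w hw
      have a4 := h1 w' hw'
      omega
    · by_cases h2 : ∃ w ∈ W, G.dist x w + 1 = G.dist y w
      · exact (key hxy.symm hy hv hu h2).symm
      · push Not at h2
        obtain ⟨huH, k1⟩ := hu.spec hG hWH hW
        obtain ⟨hvH, k2⟩ := hv.spec hG hWH hW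
        refine (h.1.dd hG huH hvH (α := G.dist x u) (β := G.dist y v) fun w hw => ?_).1
        have a1 := adj_le hG hxy w
        have a2 := adj_le hG hxy.symm w
        have a3 := h1 w hw
        have a4 := h2 w hw
        have a5 := k1 w hw
        have a6 := k2 w hw
        omega

/-- Both endpoints of an edge outside of `HE` have the same exit. -/
theorem IsMax.edge_exit (hG : G.Connected) (h : IsMax G S W HV HE) (hW : W.Nonempty) [Fintype V]
    {f : Sym2 V} (hf : f ∈ G.edgeSet) (hfE : f ∉ HE) :
    ∃ u ∈ HV, (∀ x ∈ f, ∀ w ∈ W, G.dist x w = G.dist x u + G.dist u w) ∧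
      ∀ w ∈ W, ed G f w = ed G f u + G.dist u w := by
  have hWH := h.1.WH
  induction f using Sym2.ind with
  | _ a b =>
    have hab : G.Adj a b := (SimpleGraph.mem_edgeSet G).1 hf
    obtain ⟨u, hu⟩ := h.uniq hG hW a
    obtain ⟨v, hv⟩ := h.uniq hG hW b
    have huv : u = v := by
      by_cases ha : a ∈ HV
      · by_cases hb : b ∈ HV
        · exfalso
          apply hfE
          apply h.inner hG hf
          intro x hx
          rcases Sym2.mem_iff.1 hx with rfl | rfl
          · exact ha
          · exact hb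
        · exact (h.adj_exit hG hW hab.symm hb hv hu).symm
      · exact h.adj_exit hG hW hab ha hu hv
    subst huv
    obtain ⟨huH, k1⟩ := hu.spec hG hWH hW
    obtain ⟨-, k2⟩ := hv.spec hG hWH hW
    refine ⟨u, huH, ?_, ?_⟩
    · intro x hx
      rcases Sym2.mem_iff.1 hx with rfl | rfl
      · exact k1
      · exact k2
    · intro w hw
      have a1 := k1 w hw
      have a2 := k2 w hw
      rw [ed_mk, ed_mk]
      omega

/-- Direction A. -/
theorem IsMax.resolve_edges (hG : G.Connected) (h : IsMax G S W HV HE) (hW : W.Nonempty)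
    [Fintype V] (hSW : S ⊆ W) (hS : ∀ x y : V, (∀ w ∈ S, G.dist x w = G.dist y w) → x = y)
    {f g : Sym2 V} (hf : f ∈ G.edgeSet) (hg : g ∈ G.edgeSet)
    (he : ∀ w ∈ W, ed G f w = ed G g w) : f = g := by
  by_cases hfE : f ∈ HE
  · by_cases hgE : g ∈ HE
    · exact h.1.DE f hfE g hgE he
    · exact absurd (h.ce hG hg ((h.1.BE f hfE).of_eq fun w hw => (he w hw).symm)) hgE
  · by_cases hgE : g ∈ HE
    · exact absurd (h.ce hG hf ((h.1.BE g hgE).of_eq he)) hfE
    · obtain ⟨u, hu, hu1, hu2⟩ := h.edge_exit hG hW hf hfE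
      obtain ⟨v, hv, hv1, hv2⟩ := h.edge_exit hG hW hg hgE
      obtain ⟨huv, hj⟩ := h.1.dd hG hu hv (α := ed G f u) (β := ed G g v) fun w hw => by
        have a1 := he w hw
        have a2 := hu2 w hw
        have a3 := hv2 w hw
        omega
      subst huv
      -- description of an edge: near endpoint, far endpoint
      have key : ∀ f : Sym2 V, f ∈ G.edgeSet →
          (∀ x ∈ f, ∀ w ∈ W, G.dist x w = G.dist x u + G.dist u w) →
          ∃ a b, f = s(a, b) ∧ G.dist a u = ed G f u ∧ G.dist b u = ed G f u + 1 := by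
        intro f hf hu1
        induction f using Sym2.ind with
        | _ a b =>
          have hab : G.Adj a b := (SimpleGraph.mem_edgeSet G).1 hf
          have hne : G.dist a u ≠ G.dist b u := by
            intro hh
            apply hab.ne
            apply hS
            intro w hw
            rw [hu1 a (by simp) w (hSW hw), hu1 b (by simp) w (hSW hw), hh]
          have h1 := adj_le hG hab u
          have h2 := adj_le hG hab.symm u
          rw [ed_mk]
          rcases lt_or_gt_of_ne hne with h3 | h3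
          · exact ⟨a, b, rfl, by omega, by omega⟩
          · exact ⟨b, a, Sym2.eq_swap, by omega, by omega⟩
      obtain ⟨a, b, hfab, ha, hb⟩ := key f hf hu1
      obtain ⟨c, d, hgcd, hc, hd⟩ := key g hg hv1
      have hac : a = c := by
        apply hS
        intro w hw
        rw [hu1 a (by rw [hfab]; simp) w (hSW hw), hv1 c (by rw [hgcd]; simp) w (hSW hw)]
        omega
      have hbd : b = d := by
        apply hS
        intro w hw
        rw [hu1 b (by rw [hfab]; simp) w (hSW hw), hv1 d (by rw [hgcd]; simp) w (hSW hw)]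
        omega
      rw [hfab, hgcd, hac, hbd]

/-- Direction B. -/
theorem IsMax.resolve_verts (hG : G.Connected) (h : IsMax G S W HV HE) (hW : W.Nonempty)
    [Fintype V] (hSW : S ⊆ W)
    (hS : ∀ f ∈ G.edgeSet, ∀ g ∈ G.edgeSet, (∀ w ∈ S, ed G f w = ed G g w) → f = g)
    {x y : V} (he : ∀ w ∈ W, G.dist x w = G.dist y w) : x = y := by
  have hWH := h.1.WH
  by_cases hx : x ∈ HV
  · by_cases hy : y ∈ HV
    · exact h.1.DV x hx y hy he
    · exact absurd (h.cv hG ((h.1.BV x hx).of_eq fun w hw => (he w hw).symm)) hy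
  · by_cases hy : y ∈ HV
    · exact absurd (h.cv hG ((h.1.BV y hy).of_eq he)) hx
    · obtain ⟨u, hu⟩ := h.uniq hG hW x
      obtain ⟨v, hv⟩ := h.uniq hG hW y
      obtain ⟨huH, k1⟩ := hu.spec hG hWH hW
      obtain ⟨hvH, k2⟩ := hv.spec hG hWH hW
      obtain ⟨huv, hj⟩ := h.1.dd hG huH hvH (α := G.dist x u) (β := G.dist y v) fun w hw => by
        have a1 := he w hw
        have a2 := k1 w hw
        have a3 := k2 w hw
        omega
      subst huv
      have hxu : x ≠ u := by rintro rfl; exact hx huH
      have hyu : y ≠ u := by rintro rfl; exact hy huH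
      obtain ⟨x', hx1, hx2⟩ := closer hG hxu
      obtain ⟨y', hy1, hy2⟩ := closer hG hyu
      obtain ⟨u', hu'⟩ := h.uniq hG hW x'
      obtain ⟨v', hv'⟩ := h.uniq hG hW y'
      have e1 := h.adj_exit hG hW hx1 hx hu hu'
      have e2 := h.adj_exit hG hW hy1 hy hv hv'
      subst e1
      subst e2
      obtain ⟨-, k3⟩ := hu'.spec hG hWH hW
      obtain ⟨-, k4⟩ := hv'.spec hG hWH hW
      have hfg : s(x, x') = s(y, y') := by
        apply hS _ hx1 _ hy1
        intro w hw
        have a1 := k1 w (hSW hw)
        have a2 := k2 w (hSW hw)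
        have a3 := k3 w (hSW hw)
        have a4 := k4 w (hSW hw)
        rw [ed_mk, ed_mk]
        omega
      rcases Sym2.eq_iff.1 hfg with ⟨h1, -⟩ | ⟨h1, h2⟩
      · exact h1
      · exfalso
        rw [h1] at hx2 hj
        omega

/-- The count. -/
theorem IsMax.count (hG : G.Connected) (h : IsMax G S W HV HE) (hW : W.Nonempty)
    [Fintype V] [DecidableRel G.Adj] :
    (W \ S).card + Fintype.card V ≤ G.edgeFinset.card + 1 := by
  classical
  obtain ⟨s₀, hs₀⟩ := hW
  have hsH := h.1.WH hs₀
  have hp : ∀ x : V, ∃ y, x ∉ HV → G.Adj x y ∧ G.dist y s₀ + 1 = G.dist x s₀ := by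
    intro x
    by_cases hx : x ∈ HV
    · exact ⟨x, fun hh => absurd hx hh⟩
    · obtain ⟨y, hy⟩ := closer hG (x := x) (w := s₀) (by rintro rfl; exact hx hsH)
      exact ⟨y, fun _ => hy⟩
  choose p hp using hp
  have h1 : ((Finset.univ \ HV).image fun x => s(x, p x)).card = (Finset.univ \ HV).card := by
    apply Finset.card_image_of_injOn
    intro x hx y hy hxy
    have hx' : x ∉ HV := by simpa using hx
    have hy' : y ∉ HV := by simpa using hy
    rcases Sym2.eq_iff.1 (show s(x, p x) = s(y, p y) from hxy) with ⟨h1, -⟩ | ⟨h1, h2⟩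
    · exact h1
    · exfalso
      have a1 := (hp x hx').2
      have a2 := (hp y hy').2
      rw [h2] at a1
      rw [← h1] at a2
      omega
  have h2 : Disjoint HE ((Finset.univ \ HV).image fun x => s(x, p x)) := by
    rw [Finset.disjoint_left]
    intro f hf hf'
    obtain ⟨x, hx, rfl⟩ := Finset.mem_image.1 hf'
    have hx' : x ∉ HV := by simpa using hx
    exact hx' (h.1.inc _ hf x (by simp))
  have h3 : HE ∪ ((Finset.univ \ HV).image fun x => s(x, p x)) ⊆ G.edgeFinset := by
    intro f hf
    rw [SimpleGraph.mem_edgeFinset]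
    rcases Finset.mem_union.1 hf with hf | hf
    · exact h.1.adj f hf
    · obtain ⟨x, hx, rfl⟩ := Finset.mem_image.1 hf
      have hx' : x ∉ HV := by simpa using hx
      exact (hp x hx').1
  have h4 := Finset.card_le_card h3
  rw [Finset.card_union_of_disjoint h2, h1, Finset.card_sdiff_of_subset (Finset.subset_univ _),
    Finset.card_univ] at h4
  have h5 := h.1.cnt
  have h6 : HV.card ≤ Fintype.card V := Finset.card_le_univ _
  omega

/-- The main theorem. -/
theorem main [Fintype V] [DecidableRel G.Adj] (hG : G.Connected) (S : Finset V)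
    (hS : S.Nonempty) :
    ∃ W : Finset V, S ⊆ W ∧ W.card + Fintype.card V ≤ S.card + G.edgeFinset.card + 1 ∧
      ((∀ x y : V, (∀ w ∈ S, G.dist x w = G.dist y w) → x = y) →
        ∀ f ∈ G.edgeSet, ∀ g ∈ G.edgeSet, (∀ w ∈ W, ed G f w = ed G g w) → f = g) ∧
      ((∀ f ∈ G.edgeSet, ∀ g ∈ G.edgeSet, (∀ w ∈ S, ed G f w = ed G g w) → f = g) →
        ∀ x y : V, (∀ w ∈ W, G.dist x w = G.dist y w) → x = y) := by
  obtain ⟨s₀, hs₀⟩ := hS
  obtain ⟨W, HV, HE, h⟩ := exists_isMax G S s₀ hs₀
  have hW := h.nonempty hs₀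
  have hSW := h.subset hG hW
  refine ⟨W, hSW, ?_, ?_, ?_⟩
  · have h1 := h.count hG hW
    have h2 := Finset.card_sdiff_add_card_eq_card hSW
    omega
  · intro hS f hf g hg he
    exact h.resolve_edges hG hW hSW hS hf hg he
  · intro hS x y he
    exact h.resolve_verts hG hW hSW hS he

end Pool.Agent.H9.MD
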