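import Pool.Agent.H9.MD.Cfg

/-!
The extension steps for configurations.
-/

set_option autoImplicit false

namespace Pool.Agent.H9.MD

open Finset

variable {V : Type} [DecidableEq V]
variable {G : SimpleGraph V} {S W HV : Finset V} {HE : Finset (Sym2 V)}

/-- Step A2: no geodesic between two observers leaves `HV`. -/
theorem IsMax.no_leave (hG : G.Connected) (h : IsMax G S W HV HE) {a b w₁ w₂ : V}
    (ha : a ∈ HV) (hb : b ∉ HV) (hab : G.Adj a b) (hw₁ : w₁ ∈ W) (hw₂ : w₂ ∈ W)
    (hd : G.dist a w₁ + 1 + G.dist b w₂ ≤ G.dist w₁ w₂) : False := by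
  classical
  let P : ℕ → Prop := fun n => ∃ (a b w₁ w₂ e : V) (A : Finset V) (F : Finset (Sym2 V)),
    a ∈ HV ∧ b ∉ HV ∧ G.Adj a b ∧ w₁ ∈ W ∧ w₂ ∈ W ∧
    G.dist a w₁ + 1 + G.dist b w₂ ≤ G.dist w₁ w₂ ∧ Out G HV w₂ b e A F ∧ F.card = n
  have hP : ∃ n, P n := by
    obtain ⟨e, A, F, ho⟩ := exists_out hG (h.1.WH hw₂) b
    exact ⟨F.card, a, b, w₁, w₂, e, A, F, ha, hb, hab, hw₁, hw₂, hd, ho, rfl⟩
  have hmin := fun m => Nat.find_min hP (m := m)
  have hspec := Nat.find_spec hP
  generalize Nat.find hP = n at hmin hspec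
  clear hd hab hb ha hw₁ hw₂ a b w₁ w₂ hP
  obtain ⟨a, b, w₁, w₂, e, A, F, ha, hb, hab, hw₁, hw₂, hd, ho, hn⟩ := hspec
  -- minimality in usable form
  have hmin' : ∀ x ∈ HV, G.dist b x + G.dist x w₂ = G.dist b w₂ → F.card ≤ G.dist b x := by
    intro x hx hxd
    obtain ⟨e', A', F', ho', hc'⟩ := exists_out_short hG hx b hxd
    by_contra hlt
    exact hmin F'.card (by omega) ⟨a, b, w₁, w₂, e', A', F', ha, hb, hab, hw₁, hw₂, hd, ho', rfl⟩
  have hgeo := ho.geo hG
  have hcard := ho.card hG
  have hbA : b ∈ A := by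
    cases ho with
    | here hx => exact absurd hx hb
    | step => simp
  have hw12 : G.dist w₁ w₂ = G.dist w₂ w₁ := SimpleGraph.dist_comm
  have hbw1 : G.dist b w₁ ≤ G.dist a w₁ + 1 := adj_le hG hab.symm w₁
  -- resolution of the first edge from the others
  have hfirst : ∀ f ∈ F, ed G s(a, b) w₁ < ed G f w₁ := by
    intro f hf
    have h1 := (ho.ed_w hG f hf).1
    have hfe : f ∈ G.edgeSet := by
      obtain ⟨p, q, rfl, h1, -⟩ := ho.edge hG f hf
      exact h1
    have h2 := ed_ge hG hfe w₁ w₂
    rw [ed_mk]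
    omega
  have hfirst' : s(a, b) ∉ F := fun hF => lt_irrefl _ (hfirst _ hF)
  have hbt : b ∈ insert b W := Finset.mem_insert_self _ _
  refine h.no_ext (A := A) (F := insert s(a, b) F) (t := b) (fun x hx => (ho.vert x hx).1)
    ?_ (Finset.mem_union_right _ hbA) ?_ ?_ ?_ ?_ ?_ ?_ ?_ (Or.inl (by simp))
  · -- edges
    intro f hf
    rcases Finset.mem_insert.1 hf with rfl | hf
    · refine ⟨fun hE => hb (h.1.inc _ hE b (by simp)), hab, ?_⟩
      intro x hx
      rcases Sym2.mem_iff.1 hx with rfl | rfl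
      · exact Finset.mem_union_left _ ha
      · exact Finset.mem_union_right _ hbA
    · obtain ⟨p, q, rfl, h1, h2, h3, h4, h5, h6⟩ := ho.edge hG f hf
      refine ⟨fun hE => (ho.vert p h2).1 (h.1.inc _ hE p (by simp)), h1, ?_⟩
      intro x hx
      rcases Sym2.mem_iff.1 hx with rfl | rfl
      · exact Finset.mem_union_right _ h2
      · rcases h3 with h3 | rfl
        · exact Finset.mem_union_right _ h3
        · exact Finset.mem_union_left _ ho.end_mem
  · -- bA
    intro x hx
    refine ⟨w₁, Finset.mem_insert_of_mem hw₁, w₂, Finset.mem_insert_of_mem hw₂, ?_⟩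
    have h1 := hgeo.1 x hx
    have h2 := tri hG x b w₁
    have h3 : G.dist x b = G.dist b x := SimpleGraph.dist_comm
    omega
  · -- bF
    intro f hf
    refine ⟨w₁, Finset.mem_insert_of_mem hw₁, w₂, Finset.mem_insert_of_mem hw₂, ?_⟩
    rcases Finset.mem_insert.1 hf with rfl | hf
    · rw [ed_mk, ed_mk]
      omega
    · have h1 := (ho.ed_w hG f hf).1
      obtain ⟨x, hx, hx'⟩ := ed_attain (G := G) (f := f) b
      have h2 := ed_le (G := G) hx w₁
      have h3 := tri hG x b w₁
      omega
  · -- dA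
    intro x hx y hy he
    have h1 := he b hbt
    have h2 := hgeo.1 x hx
    have h3 := hgeo.1 y hy
    have h4 : G.dist x b = G.dist b x := SimpleGraph.dist_comm
    have h5 : G.dist y b = G.dist b y := SimpleGraph.dist_comm
    exact ho.vert_inj x hx y hy (by omega)
  · -- dAH
    intro x hx y hy he
    have h1 := he b hbt
    have h2 := he w₂ (Finset.mem_insert_of_mem hw₂)
    have h3 := hgeo.1 x hx
    have h4 : G.dist x b = G.dist b x := SimpleGraph.dist_comm
    have h5 : G.dist y b = G.dist b y := SimpleGraph.dist_comm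
    have h6 := hmin' y hy (by omega)
    have h7 := (ho.vert x hx).2.2
    omega
  · -- dF
    intro f hf g hg he
    rcases Finset.mem_insert.1 hf with h1 | h1 <;> rcases Finset.mem_insert.1 hg with h2 | h2
    · rw [h1, h2]
    · have h3 := hfirst g h2
      have h4 := he w₁ (Finset.mem_insert_of_mem hw₁)
      rw [h1] at h4
      omega
    · have h3 := hfirst f h1
      have h4 := he w₁ (Finset.mem_insert_of_mem hw₁)
      rw [h2] at h4
      omega
    · have h3 := he b hbt
      have h4 := (ho.ed_w hG f h1).1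
      have h5 := (ho.ed_w hG g h2).1
      exact ho.edge_inj hG f h1 g h2 (by omega)
  · -- dFH
    intro f hf g hg he
    have h3 := he b hbt
    rcases Finset.mem_insert.1 hf with h1 | h1
    · rw [h1, ed_self_eq_zero (by simp)] at h3
      exact hb (h.1.inc g hg b (mem_of_ed_eq_zero hG h3.symm))
    · have h4 := ho.ed_w hG f h1
      have h5 := he w₂ (Finset.mem_insert_of_mem hw₂)
      obtain ⟨x, hx, hx'⟩ := ed_attain (G := G) (f := g) b
      obtain ⟨y, hy, hy'⟩ := ed_attain (G := G) (f := g) w₂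
      have hxH := h.1.inc g hg x hx
      have e1 : G.dist x b = G.dist b x := SimpleGraph.dist_comm
      have h6 := tri hG b x w₂
      have h7 : G.dist x w₂ ≤ G.dist y w₂ + 1 := by
        by_cases hxy : x = y
        · subst hxy; omega
        · have : g = s(x, y) := (Sym2.mem_and_mem_iff hxy).1 ⟨hx, hy⟩
          have h8 := h.1.adj g hg
          rw [this, SimpleGraph.mem_edgeSet] at h8
          exact adj_le hG h8 w₂
      have h9 := hmin' x hxH (by omega)
      omega
  · -- count
    rw [Finset.card_insert_of_notMem hfirst']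
    have := card_insert_sdiff_le b S W
    omega

/-- All vertices on geodesics between observers are in `HV`. -/
theorem IsMax.cv (hG : G.Connected) (h : IsMax G S W HV HE) {x : V} (hx : IV G W x) :
    x ∈ HV := by
  obtain ⟨w, hw, w', hw', hd⟩ := hx
  induction hn : G.dist x w using Nat.strong_induction_on generalizing x with
  | _ n ih =>
    by_contra hxH
    have hxw : x ≠ w := by rintro rfl; exact hxH (h.1.WH hw)
    obtain ⟨y, hy1, hy2⟩ := closer hG hxw
    have h1 := adj_le hG hy1.symm w'
    have hyH : y ∈ HV := ih (G.dist y w) (by omega) (by omega) rfl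
    exact h.no_leave hG hyH hxH hy1.symm hw hw' (by omega)

theorem IsMax.ce (hG : G.Connected) (h : IsMax G S W HV HE) {f : Sym2 V}
    (hf : f ∈ G.edgeSet) (hI : IE G W f) : f ∈ HE := by
  refine h.inner hG hf ?_
  obtain ⟨w, hw, w', hw', hd⟩ := hI
  induction f using Sym2.ind with
  | _ a b =>
    have hadj : G.Adj a b := (SimpleGraph.mem_edgeSet G).1 hf
    have h1 := adj_le hG hadj w
    have h2 := adj_le hG hadj.symm w
    have h3 := adj_le hG hadj w'
    have h4 := adj_le hG hadj.symm w'
    rw [ed_mk, ed_mk] at hd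
    have h5 := tri hG w a w'
    have h6 := tri hG w b w'
    have e1 : G.dist w a = G.dist a w := SimpleGraph.dist_comm
    have e2 : G.dist w b = G.dist b w := SimpleGraph.dist_comm
    intro x hx
    rcases Sym2.mem_iff.1 hx with rfl | rfl
    · exact h.cv hG ⟨w, hw, w', hw', by omega⟩
    · exact h.cv hG ⟨w, hw, w', hw', by omega⟩

/-- Step S: all of `S` is observed. -/
theorem IsMax.subset (hG : G.Connected) (h : IsMax G S W HV HE) (hW : W.Nonempty) : S ⊆ W := by
  intro s hs
  by_contra hsW
  have hst : s ∈ insert s W := Finset.mem_insert_self _ _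
  have hcount : insert s W \ S = W \ S := by
    ext x
    rw [Finset.mem_sdiff, Finset.mem_sdiff, Finset.mem_insert]
    constructor
    · rintro ⟨rfl | h1, h2⟩
      · exact absurd hs h2
      · exact ⟨h1, h2⟩
    · rintro ⟨h1, h2⟩
      exact ⟨Or.inr h1, h2⟩
  obtain ⟨w, hw⟩ := hW
  obtain ⟨e, A, F, ho⟩ := exists_out hG (h.1.WH hw) s
  have hgeo := ho.geo hG
  have hcard := ho.card hG
  refine h.no_ext (A := A) (F := F) (t := s) (fun x hx => (ho.vert x hx).1)
    ?_ ?_ ?_ ?_ ?_ ?_ ?_ ?_ ?_ (Or.inr ⟨hs, hsW⟩)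
  · intro f hf
    obtain ⟨p, q, rfl, h1, h2, h3, h4, h5, h6⟩ := ho.edge hG f hf
    refine ⟨fun hE => (ho.vert p h2).1 (h.1.inc _ hE p (by simp)), h1, ?_⟩
    intro x hx
    rcases Sym2.mem_iff.1 hx with rfl | rfl
    · exact Finset.mem_union_right _ h2
    · rcases h3 with h3 | rfl
      · exact Finset.mem_union_right _ h3
      · exact Finset.mem_union_left _ ho.end_mem
  · cases ho with
    | here hx => exact Finset.mem_union_left _ hx
    | step => exact Finset.mem_union_right _ (by simp)
  · intro x hx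
    refine ⟨s, hst, w, Finset.mem_insert_of_mem hw, ?_⟩
    have h1 := hgeo.1 x hx
    have h3 : G.dist x s = G.dist s x := SimpleGraph.dist_comm
    omega
  · intro f hf
    refine ⟨s, hst, w, Finset.mem_insert_of_mem hw, ?_⟩
    have h1 := (ho.ed_w hG f hf).1
    omega
  · intro x hx y hy he
    have h1 := he s hst
    have h2 := hgeo.1 x hx
    have h3 := hgeo.1 y hy
    have h4 : G.dist x s = G.dist s x := SimpleGraph.dist_comm
    have h5 : G.dist y s = G.dist s y := SimpleGraph.dist_comm
    exact ho.vert_inj x hx y hy (by omega)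
  · intro x hx y hy he
    exact (ho.vert x hx).1 (h.cv hG ((h.1.BV y hy).of_eq
      fun w hw => he w (Finset.mem_insert_of_mem hw)))
  · intro f hf g hg he
    have h3 := he s hst
    have h4 := (ho.ed_w hG f hf).1
    have h5 := (ho.ed_w hG g hg).1
    exact ho.edge_inj hG f hf g hg (by omega)
  · intro f hf g hg he
    obtain ⟨p, q, rfl, h1, h2, -⟩ := ho.edge hG f hf
    have := h.ce hG h1 ((h.1.BE g hg).of_eq fun w hw => he w (Finset.mem_insert_of_mem hw))
    exact (ho.vert p h2).1 (h.1.inc _ this p (by simp))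
  · rw [hcount]
    omega

end Pool.Agent.H9.MD
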